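import Pool.Agent.Helper52.KP.StG

/-!
# Project KP (MP_26be5b_ag), module TRN: transition between an exponential chart and the chart `Φ`
-/

set_option autoImplicit false

namespace Pool.Agent.Helper95.KP

open Pool.Agent.Helper67.NO Pool.Agent.Helper52.KP MeasureTheory Filter
open scoped ContDiff ComplexOrder Topology

universe u

/-! ### Complex derivatives are continuous -/

private theorem cont_dir {k N : ℕ} (F : (Fin k → ℂ) → (Fin N → ℂ)) (hF : Differentiable ℂ F)
    (e : Fin k → ℂ) : Continuous (fun w => fderiv ℂ F w e) := by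
  have h1 : ∀ w, fderiv ℂ F w e = Complex.cderiv 1 (fun ζ : ℂ => F (w + ζ • e)) 0 := by
    intro w
    have hd : ∀ ζ : ℂ, HasDerivAt (fun ζ : ℂ => F (w + ζ • e)) (fderiv ℂ F (w + ζ • e) e) ζ := by
      intro ζ
      have h2 : HasDerivAt (fun ζ : ℂ => w + ζ • e) e ζ := by
        have := ((hasDerivAt_id ζ).smul_const e).const_add w
        simpa using this
      exact (hF (w + ζ • e)).hasFDerivAt.comp_hasDerivAt ζ h2
    rw [Complex.cderiv_eq_deriv (U := Set.univ) isOpen_univ (fun ζ _ => (hd ζ).differentiableAt.differentiableWithinAt)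
      one_pos (Set.subset_univ _), (hd 0).deriv]
    simp
  have h3 : Continuous (fun p : (Fin k → ℂ) × ℝ => circleMap 0 1 p.2) :=
    (continuous_circleMap 0 1).comp continuous_snd
  have h4 : Continuous (fun p : (Fin k → ℂ) × ℝ => deriv (circleMap 0 1) p.2) := by
    simp only [deriv_circleMap]
    exact h3.mul continuous_const
  have h5 : Continuous (Function.uncurry (fun (w : Fin k → ℂ) (t : ℝ) =>
      deriv (circleMap 0 1) t • (((circleMap 0 1 t - 0) ^ 2)⁻¹ •
        F (w + circleMap 0 1 t • e)))) := by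
    have h7 : Continuous (fun p : (Fin k → ℂ) × ℝ => ((circleMap 0 1 p.2 - 0) ^ 2)⁻¹) := by
      refine Continuous.inv₀ ((h3.sub continuous_const).pow 2) ?_
      rintro ⟨w, t⟩
      simp [circleMap]
    have h8 : Continuous (fun p : (Fin k → ℂ) × ℝ => F (p.1 + circleMap 0 1 p.2 • e)) :=
      hF.continuous.comp (continuous_fst.add (h3.smul continuous_const))
    exact h4.smul (h7.smul h8)
  have h6 := intervalIntegral.continuous_parametric_intervalIntegral_of_continuous'
    (μ := volume) h5 0 (2 * Real.pi)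
  simp only [h1, Complex.cderiv, circleIntegral]
  have h9 : Continuous (fun _ : Fin k → ℂ => (2 * (Real.pi : ℂ) * Complex.I)⁻¹) :=
    continuous_const
  exact h9.smul h6

private theorem eval_diff {m : ℕ} (P : MvPolynomial (Fin m) ℂ) :
    Differentiable ℂ (fun z : Fin m → ℂ => MvPolynomial.eval z P) := by
  induction P using MvPolynomial.induction_on with
  | C a => simp only [MvPolynomial.eval_C]; exact differentiable_const _
  | add p q hp hq => simp only [map_add]; exact hp.add hq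
  | mul_X p i hp =>
    simp only [map_mul, MvPolynomial.eval_X]
    exact hp.mul (differentiable_apply i)

section lie

variable {g : Type u} [LieRing g] [LieAlgebra ℂ g] [FiniteDimensional ℂ g]

private theorem co_add (x y : g) : co (x + y) = co x + co y := by
  ext i; simp [co]

private theorem co_smul (c : ℂ) (x : g) : co (c • x) = c • co x := by
  ext i; simp [co]

private theorem co_sum {ι : Type} (s : Finset ι) (f : ι → g) :
    co (∑ i ∈ s, f i) = ∑ i ∈ s, co (f i) := by
  ext j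
  simp [co]

private theorem co_inj {x y : g} (h : co x = co y) : x = y := by
  apply (Module.finBasis ℂ g).repr.injective
  ext i
  exact congrFun h i

private theorem co_symm (v : Fin (Module.finrank ℂ g) → ℂ) :
    co ((Module.finBasis ℂ g).equivFun.symm v) = v := by
  have h := (Module.finBasis ℂ g).equivFun.apply_symm_apply v
  ext i
  rw [← congrFun h i]
  simp only [co, Module.Basis.equivFun_apply]

private theorem symm_co (x : g) : (Module.finBasis ℂ g).equivFun.symm (co x) = x :=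
  co_inj (co_symm _)

private theorem size_sub (x y : g) : size (y - x) = ∑ i, ‖co y i - co x i‖ := by
  unfold size co
  simp

/-! ### The Kirillov-Kostant-Souriau form -/

omit [FiniteDimensional ℂ g] in
private theorem kks_lie (y a b : g) : killingForm ℂ g y ⁅a, b⁆ = - killingForm ℂ g ⁅a, y⁆ b := by
  have h : killingForm ℂ g ⁅y, a⁆ b = killingForm ℂ g y ⁅a, b⁆ :=
    LieModule.traceForm_apply_lie_apply ℂ g g y a b
  rw [← h, ← lie_skew y a, map_neg, LinearMap.neg_apply]

omit [FiniteDimensional ℂ g] in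
private theorem kks_congr (y a b a' b' : g) (h1 : ⁅a, y⁆ = ⁅a', y⁆) (h2 : ⁅b, y⁆ = ⁅b', y⁆) :
    killingForm ℂ g y ⁅a, b⁆ = killingForm ℂ g y ⁅a', b'⁆ := by
  rw [kks_lie y a b, h1, ← kks_lie y a' b, ← lie_skew a' b, map_neg, kks_lie y b a', h2,
    ← kks_lie y b' a', ← map_neg, lie_skew]

omit [FiniteDimensional ℂ g] in
private theorem kks_mat {m : ℕ} (y : g) (Z : Fin m → g) (A : Matrix (Fin m) (Fin m) ℂ) :
    (Matrix.of fun i j : Fin m => killingForm ℂ g y ⁅∑ k, A k i • Z k, ∑ l, A l j • Z l⁆) =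
      A.transpose * (Matrix.of fun i j : Fin m => killingForm ℂ g y ⁅Z i, Z j⁆) * A := by
  ext i j
  rw [Matrix.mul_apply]
  simp only [Matrix.of_apply, Matrix.mul_apply, Matrix.transpose_apply]
  rw [sum_lie, map_sum]
  simp only [lie_sum, map_sum, smul_lie, lie_smul, map_smul, smul_eq_mul]
  rw [Finset.sum_comm]
  refine Finset.sum_congr rfl fun l _ => ?_
  rw [Finset.sum_mul]
  refine Finset.sum_congr rfl fun k _ => ?_
  ring

omit [FiniteDimensional ℂ g] in
private theorem kks_det {m : ℕ} (y : g) (Z : Fin m → g) (A : Matrix (Fin m) (Fin m) ℂ) :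
    (Matrix.of fun i j : Fin m => killingForm ℂ g y ⁅∑ k, A k i • Z k, ∑ l, A l j • Z l⁆).det =
      A.det ^ 2 * (Matrix.of fun i j : Fin m => killingForm ℂ g y ⁅Z i, Z j⁆).det := by
  rw [kks_mat, Matrix.det_mul, Matrix.det_mul, Matrix.det_transpose]
  ring

/-! ### The main theorem -/

omit [FiniteDimensional ℂ g] in
/-- dual functionals of a linearly independent family -/
private theorem dual_fun {k : ℕ} (v : Fin k → g) (hv : LinearIndependent ℂ v) :
    ∃ φ : Fin k → (g →ₗ[ℂ] ℂ), ∀ i j, φ j (v i) = if i = j then 1 else 0 := by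
  obtain ⟨f, hf⟩ := LinearMap.exists_leftInverse_of_injective
    (Fintype.linearCombination ℂ v) (by
      rw [LinearMap.ker_eq_bot]
      exact hv.fintypeLinearCombination_injective)
  refine ⟨fun j => (LinearMap.proj j).comp f, fun i j => ?_⟩
  have h1 : f (v i) = Pi.single i 1 := by
    have := LinearMap.congr_fun hf (Pi.single i 1)
    simpa using this
  simp only [LinearMap.comp_apply, LinearMap.proj_apply, h1]
  rw [Pi.single_apply]
  congr 1
  exact propext eq_comm

private theorem v_cont {m : ℕ} (X : Fin m → g)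
    (o5 : Continuous (fun p : (Fin m → ℂ) × (Fin (Module.finrank ℂ g) → ℂ) =>
      co (expAd (∑ j, p.1 j • X j) ((Module.finBasis ℂ g).equivFun.symm p.2))))
    (d : (Fin m → ℂ) → (Fin (Module.finrank ℂ g) → ℂ)) (hd : Continuous d) :
    Continuous (fun w : Fin m → ℂ => co (expAd (∑ j, (-w) j • X j)
      ((Module.finBasis ℂ g).equivFun.symm (d w)))) := by
  have h1 : Continuous (fun w : Fin m → ℂ => (-w, d w)) := continuous_neg.prodMk hd
  have h2 := o5.comp h1
  simpa only [Function.comp_def] using h2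

/-- the exponential chart and the form -/
private theorem bmat [LieAlgebra.IsSemisimple ℂ g] (hORB : StORB.{u}) (hTAN : StTAN.{u}) (x₀ : g)
    (hx₀ : x₀ ≠ 0) (hn : IsNilpotent (LieAlgebra.ad ℂ g x₀)) (x : g) (hx : Orb x₀ x) {m : ℕ}
    (X : Fin m → g) (hX : Frm x X) :
    ∃ B : (Fin m → ℂ) → Matrix (Fin m) (Fin m) ℂ, Continuous (fun w => (B w).det) ∧
      B 0 = 1 ∧ ∀ w,
      (∀ Z : Fin m → g, (∀ i, co ⁅Z i, chart x X w⁆ =
          fderiv ℂ (fun w => co (chart x X w)) w (Pi.single i 1)) →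
        (Matrix.of fun i j : Fin m => killingForm ℂ g (chart x X w) ⁅Z i, Z j⁆).det =
          (B w).det ^ 2 * (Matrix.of fun i j : Fin m => killingForm ℂ g x ⁅X i, X j⁆).det) ∧
      ((B w).det ≠ 0 → ∀ v : Fin m → ℂ,
        fderiv ℂ (fun w => co (chart x X w)) w v = 0 → v = 0) := by
  obtain ⟨o1, o2, o3, o4, o5, o6, o7⟩ := hORB g
  obtain ⟨φ, hφ⟩ := dual_fun (fun i => ⁅X i, x⁆) hX.li
  have hhol : HolMap Set.univ (chart x X) := (o4 m x X).1
  have hE : Differentiable ℂ (fun w => co (chart x X w)) := by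
    intro w
    exact (hhol w (Set.mem_univ w)).differentiableAt Filter.univ_mem
  set D : (Fin m → ℂ) → (Fin m → ℂ) →L[ℂ] (Fin (Module.finrank ℂ g) → ℂ) :=
    fun w => fderiv ℂ (fun w => co (chart x X w)) w with hD
  set V : Fin m → (Fin m → ℂ) → g := fun i w => expAd (∑ j, (-w) j • X j)
    ((Module.finBasis ℂ g).equivFun.symm (D w (Pi.single i 1))) with hV
  have hY : ∀ w : Fin m → ℂ, ∑ j, (-w) j • X j = -(∑ j, w j • X j) := by
    intro w
    simp [Finset.sum_neg_distrib]
  -- membership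
  have hspan : ∀ i w, V i w = ∑ j, φ j (V i w) • ⁅X j, x⁆ := by
    intro i w
    obtain ⟨Z, hZ⟩ := hTAN g x₀ hx₀ hn m Set.univ isOpen_univ (chart x X) hhol
      (fun z _ => Orb.step _ _ hx) w (Set.mem_univ w)
    have h1 : V i w = ⁅expAd (-(∑ j, w j • X j)) (Z i), x⁆ := by
      simp only [hV]
      rw [hD]
      simp only []
      rw [← hZ i, symm_co, hY, (o1 _ _ _).1]
      congr 1
      exact (o1 (∑ j, w j • X j) x x).2.1
    have h2 : V i w ∈ LinearMap.range (LieAlgebra.ad ℂ g x : g →ₗ[ℂ] g) := by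
      rw [h1]
      refine ⟨-(expAd (-(∑ j, w j • X j)) (Z i)), ?_⟩
      rw [LieAlgebra.ad_apply, lie_neg, lie_skew]
    rw [← hX.span] at h2
    obtain ⟨c, hc⟩ := (Submodule.mem_span_range_iff_exists_fun ℂ).1 h2
    have h3 : ∀ j, φ j (V i w) = c j := by
      intro j
      rw [← hc, map_sum]
      simp only [map_smul, hφ, smul_eq_mul]
      simp
    simp only [h3]
    exact hc.symm
  refine ⟨fun w => Matrix.of fun j i => φ j (V i w), ?_, ?_, ?_⟩
  · apply Continuous.matrix_det
    refine continuous_matrix fun j i => ?_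
    simp only [Matrix.of_apply]
    have c1 : Continuous (fun w => D w (Pi.single i 1)) := cont_dir _ hE _
    have c2 : Continuous (fun w : Fin m → ℂ => co (V i w)) := by
      simp only [hV]
      exact v_cont X (o5 m X).continuous (fun w => D w (Pi.single i 1)) c1
    have c3 : Continuous ((φ j).comp (Module.finBasis ℂ g).equivFun.symm.toLinearMap) :=
      LinearMap.continuous_of_finiteDimensional _
    have := c3.comp c2
    refine this.congr fun w => ?_
    simp only [Function.comp, LinearMap.comp_apply, LinearEquiv.coe_coe, symm_co]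
  · ext j i
    change φ j (V i 0) = (1 : Matrix (Fin m) (Fin m) ℂ) j i
    have h1 : D 0 (Pi.single i 1) = co ⁅X i, x⁆ := by
      simp only [hD]
      rw [(o4 m x X).2.2]
      congr 2
      simp [Pi.single_apply, ite_smul]
    have h2 : V i 0 = ⁅X i, x⁆ := by
      simp only [hV, neg_zero]
      rw [h1, symm_co]
      exact (o4 m ⁅X i, x⁆ X).2.1
    rw [h2, hφ, Matrix.one_apply]
    congr 1
    exact propext eq_comm
  · intro w
    have hT : ∀ y, expAd (∑ j, w j • X j) (expAd (-(∑ j, w j • X j)) y) = y := by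
      intro y
      have := (o1 (-(∑ j, w j • X j)) y y).2.1
      rwa [neg_neg] at this
    have hVi : ∀ i, expAd (∑ j, w j • X j) (V i w) =
        (Module.finBasis ℂ g).equivFun.symm (D w (Pi.single i 1)) := by
      intro i
      simp only [hV]
      rw [hY, hT]
    constructor
    · intro Z hZ
      set U : Fin m → g := fun i => ∑ j, φ j (V i w) • X j with hU
      have hUx : ∀ i, ⁅U i, x⁆ = V i w := by
        intro i
        rw [hspan i w]
        simp only [hU, sum_lie, smul_lie]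
      have h1 : ∀ i, ⁅expAd (∑ j, w j • X j) (U i), chart x X w⁆ = ⁅Z i, chart x X w⁆ := by
        intro i
        apply co_inj
        have h3 : ⁅expAd (∑ j, w j • X j) (U i), chart x X w⁆ =
            expAd (∑ j, w j • X j) ⁅U i, x⁆ := by
          unfold chart
          rw [(o1 _ _ _).1]
        rw [hZ i, h3, hUx, hVi, co_symm]
      have h2 : (Matrix.of fun i j : Fin m => killingForm ℂ g (chart x X w) ⁅Z i, Z j⁆) =
          Matrix.of fun i j : Fin m => killingForm ℂ g x ⁅U i, U j⁆ := by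
        ext i j
        simp only [Matrix.of_apply]
        rw [kks_congr (chart x X w) (Z i) (Z j) _ _ (h1 i).symm (h1 j).symm]
        unfold chart
        rw [← (o1 _ _ _).1]
        exact (o1 _ _ _).2.2.1
      rw [h2]
      exact kks_det x X (Matrix.of fun j i => φ j (V i w))
    · intro hdet v hv
      set Bw : Matrix (Fin m) (Fin m) ℂ := Matrix.of fun j i => φ j (V i w) with hBw
      have h1 : ∑ i, v i • V i w = 0 := by
        have h2 : ∑ i, v i • V i w = expAd (∑ j, (-w) j • X j)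
            ((Module.finBasis ℂ g).equivFun.symm (D w v)) := by
          have h3 : v = ∑ i, v i • (Pi.single i 1 : Fin m → ℂ) := by
            ext j
            simp [Finset.sum_apply, Pi.single_apply]
          conv_rhs => rw [h3]
          simp only [map_sum, map_smul, hV]
        rw [h2]
        have : D w v = 0 := hv
        rw [this, map_zero, map_zero]
      have h4 : ∑ j, (Bw.mulVec v) j • ⁅X j, x⁆ = 0 := by
        have h5 : ∑ j, (Bw.mulVec v) j • ⁅X j, x⁆ = ∑ i, v i • V i w := by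
          have h6 : ∀ i, v i • V i w = ∑ j, (v i * φ j (V i w)) • ⁅X j, x⁆ := by
            intro i
            conv_lhs => rw [hspan i w]
            rw [Finset.smul_sum]
            simp only [smul_smul]
          simp only [h6]
          rw [Finset.sum_comm]
          refine Finset.sum_congr rfl fun j _ => ?_
          rw [← Finset.sum_smul]
          congr 1
          simp only [Matrix.mulVec, dotProduct, hBw, Matrix.of_apply]
          exact Finset.sum_congr rfl fun i _ => mul_comm _ _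
        rw [h5, h1]
      have h7 : Bw.mulVec v = 0 := by
        ext j
        exact (Fintype.linearIndependent_iff.1 hX.li _ h4) j
      by_contra hne
      exact hdet (Matrix.exists_mulVec_eq_zero_iff.1 ⟨v, hne, h7⟩)

private theorem ext_of {x₀ : g} (f : OO x₀ → ℂ) (y : g) (h : Orb x₀ y) : ext f y = f ⟨y, h⟩ := by
  unfold ext
  rw [dif_pos h]

end lie

theorem hTRN (hNEA : StNEA.{u}) (hORB : StORB.{u}) (hCNX : StCNX.{u}) (hHLC : StHLC.{u})
    (hTAN : StTAN.{u}) : StTRN.{u} := by
  intro g _ _ _ _ x₀ hx₀ hn C x X hX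
  classical
  obtain ⟨o1, o2, o3, o4, o5, o6, o7⟩ := hORB g
  obtain ⟨_, hrkx, hnil⟩ := o3 x₀ x.1 x.2
  have hxn := hnil hn
  have hmpos : 0 < C.m := by
    rw [C.hm]
    have := C.hn
    omega
  have hx0 : x.1 ≠ 0 := by
    intro h
    have h0 : rk x.1 = 0 := by
      rw [h]
      simp [rk]
    rw [hrkx, ← C.hrk] at h0
    omega
  obtain ⟨W, δ1, ε1, hδ1, hε1, hW, hW1, hW2⟩ := hNEA g x.1 hx0 hxn C.m X hX
  obtain ⟨B, hBc, hB0, hB⟩ := bmat hORB hTAN x₀ hx₀ hn x.1 x.2 X hX
  set E : (Fin C.m → ℂ) → g := chart x.1 X with hEdef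
  have hEorb : ∀ w, Orb x₀ (E w) := fun w => Orb.step _ _ x.2
  have hhol : HolMap Set.univ E := (o4 C.m x.1 X).1
  have hE0 : E 0 = x.1 := (o4 C.m x.1 X).2.1
  have hE : Differentiable ℂ (fun w => co (E w)) := fun w =>
    (hhol w (Set.mem_univ w)).differentiableAt Filter.univ_mem
  have hfE : ∀ (k : ℕ), ∀ f ∈ Hol x₀ k, Differentiable ℂ (fun w => ext f (E w)) := by
    intro k f hf w
    exact (hHLC g x₀ hx₀ hn C.m Set.univ isOpen_univ E hhol (fun z _ => hEorb z) k f hf w
      (Set.mem_univ w)).differentiableAt Filter.univ_mem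
  set P : (Fin C.m → ℂ) → ℂ := fun w => ext C.p₁ (E w) with hPdef
  have hP : Differentiable ℂ P := hfE C.d₁ C.p₁ C.p1mem
  -- the radius
  obtain ⟨ε2, hε2, hdet⟩ : ∃ ε2 : ℝ, 0 < ε2 ∧ ∀ w : Fin C.m → ℂ, ‖w‖ < ε2 →
      1 / 2 < ‖(B w).det‖ ∧ ‖(B w).det‖ < 2 := by
    have h1 : ContinuousAt (fun w => ‖(B w).det‖) 0 := hBc.norm.continuousAt
    rw [Metric.continuousAt_iff] at h1
    obtain ⟨ε2, h2, h3⟩ := h1 (1 / 2) (by norm_num)
    refine ⟨ε2, h2, fun w hw => ?_⟩
    have h4 := h3 (x := w) (by rwa [dist_zero_right])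
    rw [hB0, Matrix.det_one, norm_one, Real.dist_eq, abs_lt] at h4
    constructor <;> linarith [h4.1, h4.2]
  set ε := min ε1 ε2 with hεdef
  have hε : 0 < ε := lt_min hε1 hε2
  have hεa : ∀ w : Fin C.m → ℂ, ‖w‖ < ε → ‖w‖ < ε1 := fun w h => h.trans_le (min_le_left _ _)
  have hεb : ∀ w : Fin C.m → ℂ, ‖w‖ < ε → ‖w‖ < ε2 := fun w h => h.trans_le (min_le_right _ _)
  -- the map
  have hex : ∀ w, P w ≠ 0 → ∃ z, MvPolynomial.eval z C.Δ ≠ 0 ∧ C.Φ z = E w := by
    intro w hw
    have h1 : C.p₁ ⟨E w, hEorb w⟩ ≠ 0 := by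
      rw [← ext_of C.p₁ (E w) (hEorb w)]
      exact hw
    exact (C.p1 ⟨E w, hEorb w⟩).1 h1
  set τ : (Fin C.m → ℂ) → (Fin C.m → ℂ) :=
    fun w => if h : P w ≠ 0 then (hex w h).choose else 0 with hτdef
  have hτ : ∀ w, P w ≠ 0 → MvPolynomial.eval (τ w) C.Δ ≠ 0 ∧ C.Φ (τ w) = E w := by
    intro w hw
    have h1 : τ w = (hex w hw).choose := by
      simp only [hτdef]
      rw [dif_pos hw]
    rw [h1]
    exact (hex w hw).choose_spec
  set O : Set (Fin C.m → ℂ) := {w | ‖w‖ < ε ∧ P w ≠ 0} with hOdef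
  have hOo : IsOpen O :=
    (isOpen_lt continuous_norm continuous_const).inter
      (isOpen_ne_fun hP.continuous continuous_const)
  -- differentiability
  have hτd : DifferentiableOn ℂ τ O := by
    rw [differentiableOn_pi]
    intro j
    obtain ⟨a, f, hf, hfj⟩ := C.crd j
    have h1 : DifferentiableOn ℂ (fun w => ext f (E w) * ((P w) ^ a)⁻¹) O := by
      intro w hw
      have h3 : DifferentiableAt ℂ (fun w => ((P w) ^ a)⁻¹) w :=
        DifferentiableAt.fun_inv ((hP w).fun_pow a) (pow_ne_zero _ hw.2)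
      exact (((hfE _ f hf) w).fun_mul h3).differentiableWithinAt
    refine h1.congr fun w hw => ?_
    have h2 := hfj (τ w) (hτ w hw.2).1
    rw [(hτ w hw.2).2] at h2
    rw [h2, mul_inv_cancel_right₀]
    exact pow_ne_zero _ hw.2
  have hΦd : Differentiable ℂ (fun z => co (C.Φ z)) := by
    rw [differentiable_pi]
    intro i
    obtain ⟨Q, hQ⟩ := C.poly i
    have : (fun z => co (C.Φ z) i) = fun z => MvPolynomial.eval z Q := funext hQ
    rw [this]
    exact eval_diff Q
  have hchain : ∀ w ∈ O, ∀ v, fderiv ℂ (fun w => co (E w)) w v =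
      fderiv ℂ (fun z => co (C.Φ z)) (τ w) (fderiv ℂ τ w v) := by
    intro w hw v
    have h1 : HasFDerivAt τ (fderiv ℂ τ w) w :=
      ((hτd w hw).differentiableAt (hOo.mem_nhds hw)).hasFDerivAt
    have h2 := (hΦd (τ w)).hasFDerivAt.comp w h1
    have h3 : (fun w => co (E w)) =ᶠ[𝓝 w] ((fun z => co (C.Φ z)) ∘ τ) := by
      filter_upwards [hOo.mem_nhds hw] with w' hw'
      simp only [Function.comp]
      rw [(hτ w' hw'.2).2]
    have h4 := h2.congr_of_eventuallyEq h3
    rw [h4.fderiv]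
    rfl
  have hdetne : ∀ w ∈ O, (fderiv ℂ τ w).det ≠ 0 := by
    intro w hw h0
    have h1 : (LinearMap.toMatrix' (fderiv ℂ τ w : (Fin C.m → ℂ) →ₗ[ℂ] (Fin C.m → ℂ))).det = 0 := by
      rw [LinearMap.det_toMatrix']
      exact h0
    obtain ⟨v, hv, hv0⟩ := Matrix.exists_mulVec_eq_zero_iff.2 h1
    rw [LinearMap.toMatrix'_mulVec] at hv0
    apply hv
    apply (hB w).2
    · intro hB'
      have := (hdet w (hεb w hw.1)).1
      rw [hB', norm_zero] at this
      linarith
    · rw [hchain w hw v]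
      have : fderiv ℂ τ w v = 0 := hv0
      rw [this, map_zero]
  set K0 : ℂ := (Matrix.of fun i j : Fin C.m => killingForm ℂ g x.1 ⁅X i, X j⁆).det with hK0
  have hVo : IsOpen {z : Fin C.m → ℂ | MvPolynomial.eval z C.Δ ≠ 0} :=
    isOpen_ne_fun (eval_diff C.Δ).continuous continuous_const
  have hjac : ∀ w ∈ O, ‖MvPolynomial.eval (τ w) C.J‖ ^ 2 * ‖(fderiv ℂ τ w).det‖ ^ 2 =
      ‖(B w).det‖ ^ 2 * ‖K0‖ := by
    intro w hw
    have hz := (hτ w hw.2).1
    have hΦE := (hτ w hw.2).2
    obtain ⟨Z, hZ⟩ := hTAN g x₀ hx₀ hn C.m _ hVo C.Φ hΦd.differentiableOn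
      (fun z hz => C.orb z hz) (τ w) hz
    have hk := C.kks (τ w) hz Z hZ
    set A : Matrix (Fin C.m) (Fin C.m) ℂ :=
      LinearMap.toMatrix' (fderiv ℂ τ w : (Fin C.m → ℂ) →ₗ[ℂ] (Fin C.m → ℂ)) with hA
    have hAa : ∀ k i, A k i = fderiv ℂ τ w (Pi.single i 1) k := by
      intro k i
      rw [hA, LinearMap.toMatrix'_apply]
      rfl
    have hdetA : A.det = (fderiv ℂ τ w).det := by
      rw [hA, LinearMap.det_toMatrix']
    have h2 : ∀ i, co ⁅∑ k, A k i • Z k, E w⁆ =
        fderiv ℂ (fun w => co (E w)) w (Pi.single i 1) := by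
      intro i
      rw [hchain w hw, sum_lie, co_sum]
      simp only [smul_lie, co_smul]
      rw [← hΦE]
      simp only [hZ]
      simp only [← map_smul]
      rw [← map_sum]
      congr 1
      ext k
      simp [Finset.sum_apply, Pi.single_apply, hAa]
    have h3 := (hB w).1 (fun i => ∑ k, A k i • Z k) h2
    have h4 := kks_det (E w) Z A
    rw [h4] at h3
    have h5 := congrArg norm h3
    rw [norm_mul, norm_mul, norm_pow, norm_pow] at h5
    rw [← hΦE, hk, hdetA] at h5
    rw [← h5]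
    ring
  -- density
  obtain ⟨z₁, hz₁⟩ : ∃ z : Fin C.m → ℂ, MvPolynomial.eval z C.Δ ≠ 0 := by
    by_contra hcon
    push Not at hcon
    exact C.Δ0 (MvPolynomial.funext fun z => by rw [hcon z, map_zero])
  have hp1 : C.p₁ ≠ 0 := by
    intro h
    have h1 := (C.p1 ⟨C.Φ z₁, C.orb z₁ hz₁⟩).2 ⟨z₁, hz₁, rfl⟩
    rw [h] at h1
    exact h1 rfl
  have hdens : ∀ V : Set (Fin C.m → ℂ), IsOpen V → V.Nonempty → ∃ w ∈ V, P w ≠ 0 := by
    intro V hV hVn
    exact hCNX g x₀ hx₀ hn C.d₁ C.p₁ C.p1mem hp1 x C.m X hX V hV hVn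
  have hK0ne : K0 ≠ 0 := by
    obtain ⟨w, hw1, hw2⟩ := hdens {w | ‖w‖ < ε} (isOpen_lt continuous_norm continuous_const)
      ⟨0, by simpa using hε⟩
    have hw : w ∈ O := ⟨hw1, hw2⟩
    intro h0
    have h1 := hjac w hw
    rw [h0, norm_zero, mul_zero] at h1
    rcases mul_eq_zero.1 h1 with h | h
    · exact C.J0 (τ w) (hτ w hw2).1 (norm_eq_zero.1 (pow_eq_zero_iff (two_ne_zero)|>.1 h))
    · exact hdetne w hw (norm_eq_zero.1 (pow_eq_zero_iff (two_ne_zero)|>.1 h))
  have hK0p : 0 < ‖K0‖ := norm_pos_iff.2 hK0ne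
  -- continuity of W
  obtain ⟨δ2, hδ2, hWc⟩ : ∃ δ2 : ℝ, 0 < δ2 ∧ ∀ y : g, size (y - x.1) < δ2 → ‖W y‖ < ε := by
    have hmem : {v : Fin (Module.finrank ℂ g) → ℂ | ∑ i, ‖v i - co x.1 i‖ < δ1} ∈ 𝓝 (co x.1) := by
      apply IsOpen.mem_nhds
      · exact isOpen_lt (by fun_prop) continuous_const
      · simpa using hδ1
    have h1 : ContinuousAt (fun v => W ((Module.finBasis ℂ g).equivFun.symm v)) (co x.1) :=
      ((hW (co x.1) (mem_of_mem_nhds hmem)).differentiableAt hmem).continuousAt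
    rw [Metric.continuousAt_iff] at h1
    obtain ⟨δ2, h2, h3⟩ := h1 ε hε
    refine ⟨δ2, h2, fun y hy => ?_⟩
    have hWx : W x.1 = 0 := by
      have := (hW2 0 (by simpa using hε1)).2
      rwa [hE0] at this
    have h4 := h3 (x := co y) ?_
    · rw [symm_co, symm_co, hWx, dist_zero_right] at h4
      exact h4
    · rw [dist_eq_norm, pi_norm_lt_iff h2]
      intro i
      rw [size_sub] at hy
      refine lt_of_le_of_lt ?_ hy
      exact Finset.single_le_sum (f := fun i => ‖co y i - co x.1 i‖)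
        (fun i _ => norm_nonneg _) (Finset.mem_univ i)
  refine ⟨ε, min δ1 δ2, ‖K0‖ / 4, 4 * ‖K0‖, τ, hε, lt_min hδ1 hδ2, by positivity, ?_, hτd, ?_,
    ?_, ?_⟩
  · intro w w' hw hw' h
    have h1 := (hW2 w (hεa w hw)).2
    have h2 := (hW2 w' (hεa w' hw')).2
    rw [← h1, ← h2]
    exact congrArg W h
  · intro w hw hPw
    have hwO : w ∈ O := ⟨hw, hPw⟩
    refine ⟨(hτ w hPw).1, (hτ w hPw).2, ?_, ?_⟩
    · rw [hjac w hwO]
      have h1 := (hdet w (hεb w hw)).1
      have h3 : 1 / 4 ≤ ‖(B w).det‖ ^ 2 := by nlinarith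
      have h4 := mul_le_mul_of_nonneg_right h3 hK0p.le
      linarith
    · rw [hjac w hwO]
      have h1 := (hdet w (hεb w hw)).2
      have h2 := norm_nonneg (B w).det
      have h3 : ‖(B w).det‖ ^ 2 ≤ 4 := by nlinarith
      exact mul_le_mul_of_nonneg_right h3 hK0p.le
  · intro V hV hVn _
    exact hdens V hV hVn
  · intro z hz hsz
    have horb : Orb x₀ (C.Φ z) := C.orb z hz
    obtain ⟨_, hrkz, hnilz⟩ := o3 x₀ (C.Φ z) horb
    have h1 := hW1 (C.Φ z) (hsz.trans_le (min_le_left _ _)) (hnilz hn) (by rw [hrkz, hrkx])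
    have h2 := hWc (C.Φ z) (hsz.trans_le (min_le_right _ _))
    refine ⟨W (C.Φ z), h2, h1.symm, ?_⟩
    have h3 : P (W (C.Φ z)) ≠ 0 := by
      have h4 : P (W (C.Φ z)) = ext C.p₁ (C.Φ z) := by
        simp only [hPdef]
        exact congrArg (ext C.p₁) h1.symm
      rw [h4, ext_of C.p₁ _ horb]
      exact (C.p1 ⟨C.Φ z, horb⟩).2 ⟨z, hz, rfl⟩
    obtain ⟨h5, h6⟩ := hτ _ h3
    apply C.inj _ _ h5 hz
    rw [h6]
    exact h1.symm

end Pool.Agent.Helper95.KP
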