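import Pool.Agent.Helper52.KP.StW

/-!
# Project KP (MP_26be5b_ag), module SMV: mean value inequality for smooth subharmonic functions
-/

set_option autoImplicit false

namespace Pool.Agent.Helper95.KP

open MeasureTheory Filter
open scoped ContDiff ComplexOrder Topology

/-- differentiation under the integral sign for continuous functions -/
theorem deriv_under (F F' : ℝ → ℝ → ℝ) (hF : ∀ r, Continuous (F r))
    (hF' : Continuous (Function.uncurry F'))
    (hd : ∀ r t, HasDerivAt (fun s => F s t) (F' r t) r) (a b r : ℝ) :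
    HasDerivAt (fun s => ∫ t in a..b, F s t) (∫ t in a..b, F' r t) r := by
  have hK : IsCompact (Metric.closedBall r 1 ×ˢ Set.uIcc a b) :=
    (isCompact_closedBall r 1).prod isCompact_uIcc
  obtain ⟨C, hC⟩ := hK.exists_bound_of_continuousOn hF'.continuousOn
  have h := intervalIntegral.hasDerivAt_integral_of_dominated_loc_of_deriv_le
    (μ := volume) (F := F) (F' := F') (x₀ := r) (s := Metric.ball r 1)
    (bound := fun _ => C) (a := a) (b := b) (Metric.ball_mem_nhds r one_pos) ?_ ?_ ?_ ?_ ?_ ?_
  · exact h.2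
  · exact Eventually.of_forall fun s => (hF s).aestronglyMeasurable
  · exact (hF r).intervalIntegrable a b
  · have : Continuous (F' r) := hF'.comp (by fun_prop : Continuous fun t : ℝ => (r, t))
    exact this.aestronglyMeasurable
  · refine ae_of_all _ fun t ht s hs => ?_
    exact hC (s, t) ⟨Metric.ball_subset_closedBall hs, Set.uIoc_subset_uIcc ht⟩
  · exact intervalIntegrable_const
  · exact ae_of_all _ fun t _ s _ => hd s t

/-- the unit vector -/
noncomputable def ev (t : ℝ) : ℂ := Complex.exp (t * Complex.I)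

theorem ev_deriv (t : ℝ) : HasDerivAt ev (Complex.I * ev t) t := by
  unfold ev
  have h1 : HasDerivAt (fun s : ℝ => (s : ℂ) * Complex.I) Complex.I t := by
    have := (Complex.ofRealCLM.hasDerivAt (x := t)).mul_const Complex.I
    simpa using this
  have h2 := h1.cexp
  convert h2 using 1
  ring

theorem ev_cont : Continuous ev := by
  unfold ev
  fun_prop

theorem ev_eq (t : ℝ) : ev t = Real.cos t • (1 : ℂ) + Real.sin t • Complex.I := by
  unfold ev
  rw [Complex.exp_mul_I]
  simp [Complex.real_smul]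

theorem iev_eq (t : ℝ) : Complex.I * ev t = (-Real.sin t) • (1 : ℂ) + Real.cos t • Complex.I := by
  rw [ev_eq]
  simp only [Complex.real_smul, Complex.ofReal_neg]
  linear_combination (Real.sin t : ℂ) * Complex.I_mul_I

theorem hSMV : Pool.Agent.Helper52.KP.StSMV := by
  intro v hv hlap
  set D1 : ℂ → ℂ →L[ℝ] ℝ := fderiv ℝ v with hD1
  set D2 : ℂ → ℂ →L[ℝ] ℂ →L[ℝ] ℝ := fderiv ℝ D1 with hD2
  have hv1 : ∀ z, HasFDerivAt v (D1 z) z := fun z =>
    (hv.differentiable (by simp)).differentiableAt.hasFDerivAt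
  have hD1s : ContDiff ℝ ∞ D1 := hv.fderiv_right (by simp)
  have hv2 : ∀ z, HasFDerivAt D1 (D2 z) z := fun z =>
    (hD1s.differentiable (by simp)).differentiableAt.hasFDerivAt
  have hD2s : ContDiff ℝ ∞ D2 := hD1s.fderiv_right (by simp)
  have hD1c : Continuous D1 := hD1s.continuous
  have hD2c : Continuous D2 := hD2s.continuous
  -- Laplacian in any orthonormal frame
  have hlap2 : ∀ z, 0 ≤ D2 z 1 1 + D2 z Complex.I Complex.I := by
    intro z
    have h1 : ∀ e : ℂ, fderiv ℝ (fun w => fderiv ℝ v w e) z e = D2 z e e := by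
      intro e
      have := (hv2 z).clm_apply (hasFDerivAt_const e z)
      rw [this.fderiv]
      simp
    have h2 := hlap z
    rw [h1, h1] at h2
    exact h2
  have hframe : ∀ z t, 0 ≤ D2 z (ev t) (ev t) + D2 z (Complex.I * ev t) (Complex.I * ev t) := by
    intro z t
    rw [iev_eq, ev_eq]
    simp only [map_add, map_smul, add_apply, smul_apply,
      smul_eq_mul]
    have h := hlap2 z
    have hsc := Real.sin_sq_add_cos_sq t
    have key : ∀ (a b c d s k : ℝ), s ^ 2 + k ^ 2 = 1 →
        k * (k * a + s * b) + s * (k * c + s * d) +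
        (-s * (-s * a + k * b) + k * (-s * c + k * d)) = a + d := by
      intro a b c d s k hsk
      linear_combination (a + d) * hsk
    have h3 := key (D2 z 1 1) (D2 z 1 Complex.I) (D2 z Complex.I 1) (D2 z Complex.I Complex.I)
      (Real.sin t) (Real.cos t) hsc
    rw [← h3] at h
    convert h using 1
    ring
  -- the functions
  have hd1 : ∀ r t : ℝ, HasDerivAt (fun s : ℝ => v ((s : ℂ) * ev t)) (D1 ((r : ℂ) * ev t) (ev t)) r := by
    intro r t
    have h1 : HasDerivAt (fun s : ℝ => (s : ℂ) * ev t) (ev t) r := by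
      have := (Complex.ofRealCLM.hasDerivAt (x := r)).mul_const (ev t)
      simpa using this
    exact (hv1 _).comp_hasDerivAt r h1
  have hd2 : ∀ r t : ℝ, HasDerivAt (fun s : ℝ => D1 ((s : ℂ) * ev t) (ev t))
      (D2 ((r : ℂ) * ev t) (ev t) (ev t)) r := by
    intro r t
    have h1 : HasDerivAt (fun s : ℝ => (s : ℂ) * ev t) (ev t) r := by
      have := (Complex.ofRealCLM.hasDerivAt (x := r)).mul_const (ev t)
      simpa using this
    have h2 := (hv2 ((r : ℂ) * ev t)).comp_hasDerivAt r h1
    have h3 := h2.clm_apply (hasDerivAt_const r (ev t))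
    simpa using h3
  have hd3 : ∀ r t : ℝ, HasDerivAt (fun s : ℝ => D1 ((r : ℂ) * ev s) (Complex.I * ev s))
      (r * D2 ((r : ℂ) * ev t) (Complex.I * ev t) (Complex.I * ev t) -
        D1 ((r : ℂ) * ev t) (ev t)) t := by
    intro r t
    have h1 : HasDerivAt (fun s : ℝ => (r : ℂ) * ev s) ((r : ℂ) * (Complex.I * ev t)) t :=
      (ev_deriv t).const_mul (r : ℂ)
    have h2 := (hv2 ((r : ℂ) * ev t)).comp_hasDerivAt t h1
    have h4 : HasDerivAt (fun s : ℝ => Complex.I * ev s) (Complex.I * (Complex.I * ev t)) t :=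
      (ev_deriv t).const_mul Complex.I
    have h3 := h2.clm_apply h4
    refine h3.congr_deriv ?_
    have e1 : (r : ℂ) * (Complex.I * ev t) = r • (Complex.I * ev t) := by
      rw [Complex.real_smul]
    have e2 : Complex.I * (Complex.I * ev t) = - ev t := by
      linear_combination (ev t) * Complex.I_mul_I
    rw [e1, e2, map_smul, map_neg]
    simp only [smul_apply, smul_eq_mul, Function.comp]
    ring
  have hcm : Continuous (fun p : ℝ × ℝ => ((p.1 : ℂ) * ev p.2)) := by
    have := ev_cont
    fun_prop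
  have hce : Continuous (fun p : ℝ × ℝ => ev p.2) := ev_cont.comp continuous_snd
  have c1 : Continuous (Function.uncurry fun (r t : ℝ) => D1 ((r : ℂ) * ev t) (ev t)) :=
    (hD1c.comp hcm).clm_apply hce
  have c2 : Continuous (Function.uncurry fun (r t : ℝ) => D2 ((r : ℂ) * ev t) (ev t) (ev t)) :=
    ((hD2c.comp hcm).clm_apply hce).clm_apply hce
  have hcie : Continuous (fun p : ℝ × ℝ => Complex.I * ev p.2) := continuous_const.mul hce
  have c3 : Continuous (Function.uncurry fun (r t : ℝ) =>
      D2 ((r : ℂ) * ev t) (Complex.I * ev t) (Complex.I * ev t)) :=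
    ((hD2c.comp hcm).clm_apply hcie).clm_apply hcie
  have cr : ∀ r : ℝ, Continuous (fun t : ℝ => (r, t)) := fun r => by fun_prop
  set A : ℝ → ℝ := fun r => ∫ t in (0 : ℝ)..2 * Real.pi, v ((r : ℂ) * ev t) with hA
  set B : ℝ → ℝ := fun r => ∫ t in (0 : ℝ)..2 * Real.pi, D1 ((r : ℂ) * ev t) (ev t) with hB
  have hAd : ∀ r, HasDerivAt A (B r) r := fun r =>
    deriv_under (fun r t => v ((r : ℂ) * ev t)) (fun r t => D1 ((r : ℂ) * ev t) (ev t))
      (fun r => hv.continuous.comp (continuous_const.mul ev_cont)) c1 hd1 0 (2 * Real.pi) r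
  have hBd : ∀ r : ℝ, HasDerivAt B
      (∫ t in (0 : ℝ)..2 * Real.pi, D2 ((r : ℂ) * ev t) (ev t) (ev t)) r := fun r =>
    deriv_under (fun r t => D1 ((r : ℂ) * ev t) (ev t))
      (fun r t => D2 ((r : ℂ) * ev t) (ev t) (ev t))
      (fun r => c1.comp (cr r)) c2 hd2 0 (2 * Real.pi) r
  have hper : ∀ r : ℝ, (∫ t in (0 : ℝ)..2 * Real.pi,
      (r * D2 ((r : ℂ) * ev t) (Complex.I * ev t) (Complex.I * ev t) -
        D1 ((r : ℂ) * ev t) (ev t))) = 0 := by
    intro r
    rw [intervalIntegral.integral_eq_sub_of_hasDerivAt (fun t _ => hd3 r t)]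
    · have e0 : ev (2 * Real.pi) = ev 0 := by
        unfold ev
        push_cast
        rw [Complex.exp_two_pi_mul_I]
        simp
      rw [e0, sub_self]
    · apply Continuous.intervalIntegrable
      exact (continuous_const.mul (c3.comp (cr r))).sub (c1.comp (cr r))
  have hBr : ∀ r : ℝ, B r = r * ∫ t in (0 : ℝ)..2 * Real.pi,
      D2 ((r : ℂ) * ev t) (Complex.I * ev t) (Complex.I * ev t) := by
    intro r
    have h := hper r
    rw [intervalIntegral.integral_sub, intervalIntegral.integral_const_mul] at h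
    · linarith
    · exact (continuous_const.mul (c3.comp (cr r))).intervalIntegrable _ _
    · exact (c1.comp (cr r)).intervalIntegrable _ _
  have hrB : ∀ r : ℝ, HasDerivAt (fun s => s * B s) (r * ∫ t in (0 : ℝ)..2 * Real.pi,
      (D2 ((r : ℂ) * ev t) (ev t) (ev t) +
        D2 ((r : ℂ) * ev t) (Complex.I * ev t) (Complex.I * ev t))) r := by
    intro r
    have h := (hasDerivAt_id r).mul (hBd r)
    refine h.congr_deriv ?_
    rw [intervalIntegral.integral_add, hBr r]
    · simp only [id]
      ring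
    · exact (c2.comp (cr r)).intervalIntegrable _ _
    · exact (c3.comp (cr r)).intervalIntegrable _ _
  have hpi : (0 : ℝ) ≤ 2 * Real.pi := by positivity
  have hmono : MonotoneOn (fun s => s * B s) (Set.Ici 0) := by
    apply monotoneOn_of_deriv_nonneg (convex_Ici 0)
    · exact fun s _ => (hrB s).continuousAt.continuousWithinAt
    · exact fun s _ => (hrB s).differentiableAt.differentiableWithinAt
    · intro s hs
      rw [interior_Ici] at hs
      rw [(hrB s).deriv]
      apply mul_nonneg (le_of_lt hs)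
      apply intervalIntegral.integral_nonneg hpi
      exact fun t _ => hframe _ _
  have hBnn : ∀ s, 0 < s → 0 ≤ B s := by
    intro s hs
    have h := hmono (Set.mem_Ici.mpr le_rfl) (Set.mem_Ici.mpr hs.le) hs.le
    simp only [zero_mul] at h
    exact nonneg_of_mul_nonneg_right h hs
  have hAmono : MonotoneOn A (Set.Ici 0) := by
    apply monotoneOn_of_deriv_nonneg (convex_Ici 0)
    · exact fun s _ => (hAd s).continuousAt.continuousWithinAt
    · exact fun s _ => (hAd s).differentiableAt.differentiableWithinAt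
    · intro s hs
      rw [interior_Ici] at hs
      rw [(hAd s).deriv]
      exact hBnn s hs
  have h01 : A 0 ≤ A 1 := hAmono (Set.mem_Ici.mpr le_rfl) (Set.mem_Ici.mpr zero_le_one) zero_le_one
  have hA0 : A 0 = 2 * Real.pi * v 0 := by
    simp [hA]
  have hA1 : A 1 = ∫ θ in (0 : ℝ)..2 * Real.pi, v (Complex.exp (θ * Complex.I)) := by
    simp only [hA, Complex.ofReal_one, one_mul]
    rfl
  rw [← hA1]
  rw [hA0] at h01
  have hp : 0 < 2 * Real.pi := by positivity
  rw [inv_mul_eq_div, le_div_iff₀ hp]
  linarith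

end Pool.Agent.Helper95.KP
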