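import Pool.Agent.Helper52.KP.StL

/-!
# Project KP (MP_26be5b_ag), module SUP: the mean value property on polydiscs
-/

set_option autoImplicit false

namespace Pool.Agent.Helper95.KP

open MeasureTheory Filter
open scoped ContDiff ComplexOrder Topology

variable {m : ℕ}

/-- rotation about `z` -/
noncomputable def rt (z : Fin m → ℂ) (t : ℝ) (x : Fin m → ℂ) : Fin m → ℂ :=
  fun i => z i + Complex.exp (t * Complex.I) * (x i - z i)

theorem rt_mp (z : Fin m → ℂ) (t : ℝ) : MeasurePreserving (rt z t) volume volume := by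
  have h1 : ∀ i : Fin m, MeasurePreserving
      (fun w : ℂ => z i + Complex.exp (t * Complex.I) * (w - z i)) volume volume := by
    intro i
    have ha : MeasurePreserving (fun w : ℂ => w - z i) volume volume :=
      measurePreserving_sub_right volume (z i)
    have hb : MeasurePreserving (fun w : ℂ => Complex.exp (t * Complex.I) * w) volume volume := by
      have := LinearIsometryEquiv.measurePreserving (rotation (Circle.exp t))
      have he : (rotation (Circle.exp t) : ℂ → ℂ) =
          fun w : ℂ => Complex.exp (t * Complex.I) * w := by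
        ext w
        simp [rotation_apply, Circle.coe_exp]
      rwa [he] at this
    have hc : MeasurePreserving (fun w : ℂ => z i + w) volume volume :=
      measurePreserving_add_left volume (z i)
    exact hc.comp (hb.comp ha)
  exact volume_preserving_pi h1

theorem rt_mem (z : Fin m → ℂ) (t : ℝ) (r : ℝ) (x : Fin m → ℂ) :
    rt z t x ∈ Metric.ball z r ↔ x ∈ Metric.ball z r := by
  have : dist (rt z t x) z = dist x z := by
    rw [dist_eq_norm, dist_eq_norm]
    have he : rt z t x - z = Complex.exp (t * Complex.I) • (x - z) := by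
      ext i
      simp [rt]
    rw [he, norm_smul, Complex.norm_exp_ofReal_mul_I, one_mul]
  rw [Metric.mem_ball, Metric.mem_ball, this]

theorem rt_meas (z : Fin m → ℂ) :
    Measurable (Function.uncurry (fun (t : ℝ) (x : Fin m → ℂ) => rt z t x)) := by
  refine measurable_pi_lambda _ fun i => ?_
  unfold rt Function.uncurry
  fun_prop

theorem rt_rest (z : Fin m → ℂ) (t r : ℝ) :
    MeasurePreserving (rt z t) (volume.restrict (Metric.ball z r))
      (volume.restrict (Metric.ball z r)) := by
  have h := (rt_mp z t).restrict_preimage (s := Metric.ball z r) measurableSet_ball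
  have he : rt z t ⁻¹' Metric.ball z r = Metric.ball z r := by
    ext x
    exact rt_mem z t r x
  rwa [he] at h

/-- circle average -/
theorem rt_avg (z : Fin m → ℂ) (r : ℝ) (h : (Fin m → ℂ) → ℂ)
    (hd : DifferentiableOn ℂ h (Metric.ball z r)) (x : Fin m → ℂ) (hx : x ∈ Metric.ball z r) :
    ∫ t in (0 : ℝ)..2 * Real.pi, h (rt z t x) = 2 * Real.pi * h z := by
  set g : ℂ → ℂ := fun w => h (fun i => z i + w * (x i - z i)) with hg
  have hmaps : ∀ w ∈ Metric.closedBall (0 : ℂ) 1, (fun i => z i + w * (x i - z i)) ∈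
      Metric.ball z r := by
    intro w hw
    rw [mem_closedBall_zero_iff] at hw
    rw [Metric.mem_ball, dist_eq_norm] at hx ⊢
    have he : (fun i => z i + w * (x i - z i)) - z = w • (x - z) := by
      ext i
      simp
    rw [he, norm_smul]
    calc ‖w‖ * ‖x - z‖ ≤ 1 * ‖x - z‖ := by gcongr
      _ < r := by rwa [one_mul]
  have hdg : DifferentiableOn ℂ g (Metric.closedBall (0 : ℂ) 1) := by
    refine hd.comp (t := Metric.ball z r) ?_ hmaps
    refine Differentiable.differentiableOn ?_
    rw [differentiable_pi]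
    intro i
    fun_prop
  have h2 : Real.circleAverage g 0 1 = g 0 := by
    apply DiffContOnCl.circleAverage
    rw [abs_one]
    refine DifferentiableOn.diffContOnCl ?_
    exact hdg.mono Metric.closure_ball_subset_closedBall
  rw [Real.circleAverage_def] at h2
  have h3 : g 0 = h z := by
    simp [hg]
  have h4 : (∫ t in (0 : ℝ)..2 * Real.pi, g (circleMap 0 1 t)) =
      ∫ t in (0 : ℝ)..2 * Real.pi, h (rt z t x) := by
    congr 1
    ext t
    simp only [hg, circleMap, zero_add, Complex.ofReal_one, one_mul]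
    rfl
  rw [h4, h3] at h2
  rw [← h2]
  have hp : (Real.pi : ℂ) ≠ 0 := by exact_mod_cast Real.pi_ne_zero
  rw [Complex.real_smul]
  push_cast
  field_simp

theorem vol_ball (z : Fin m → ℂ) (r : ℝ) (hr : 0 < r) :
    volume.real (Metric.ball z r) = (Real.pi * r ^ 2) ^ m := by
  rw [Measure.real, volume_pi_ball z hr, ENNReal.toReal_prod]
  simp only [Complex.volume_ball]
  simp only [ENNReal.toReal_mul, ENNReal.toReal_pow, ENNReal.toReal_ofReal hr.le,
    Finset.prod_const, Finset.card_univ, Fintype.card_fin]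
  congr 1
  rw [mul_comm]
  rfl

theorem mean (z : Fin m → ℂ) (r : ℝ) (hr : 0 < r) (h : (Fin m → ℂ) → ℂ)
    (hd : DifferentiableOn ℂ h (Metric.ball z r)) (hi : IntegrableOn h (Metric.ball z r)) :
    (((Real.pi * r ^ 2) ^ m : ℝ) : ℂ) * h z = ∫ x in Metric.ball z r, h x := by
  set μ := (volume : Measure (Fin m → ℂ)).restrict (Metric.ball z r) with hμ
  have hfin : IsFiniteMeasure μ := by
    rw [hμ]
    exact ⟨by simpa using Metric.isBounded_ball.measure_lt_top⟩
  set ν := (volume : Measure ℝ).restrict (Set.Ioc 0 (2 * Real.pi)) with hν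
  have hsk : MeasurePreserving (fun p : ℝ × (Fin m → ℂ) => (id p.1, rt z p.1 p.2))
      (ν.prod μ) (ν.prod μ) :=
    (MeasurePreserving.id ν).skew_product (rt_meas z) (ae_of_all _ fun t => (rt_rest z t r).map_eq)
  have hint : Integrable (fun p : ℝ × (Fin m → ℂ) => h (rt z p.1 p.2)) (ν.prod μ) := by
    have h1 : Integrable (fun p : ℝ × (Fin m → ℂ) => h p.2) (ν.prod μ) := hi.comp_snd ν
    exact (hsk.integrable_comp_of_integrable h1)
  have hpi : (0 : ℝ) ≤ 2 * Real.pi := by positivity
  have e1 : ∫ t, ∫ x, h (rt z t x) ∂μ ∂ν = (2 * Real.pi : ℝ) • ∫ x, h x ∂μ := by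
    have : ∀ t, ∫ x, h (rt z t x) ∂μ = ∫ x, h x ∂μ := by
      intro t
      have h2 := (rt_rest z t r).map_eq
      have h3 : ∫ x, h x ∂μ = ∫ x, h x ∂(Measure.map (rt z t) μ) := by rw [h2]
      rw [h3, integral_map (rt_rest z t r).measurable.aemeasurable]
      rw [h2]
      exact hi.aestronglyMeasurable
    simp only [this]
    rw [integral_const]
    simp [hν, Measure.real, Real.pi_nonneg]
  have e2 : ∫ t, ∫ x, h (rt z t x) ∂μ ∂ν = ∫ x, ∫ t, h (rt z t x) ∂ν ∂μ :=
    integral_integral_swap hint
  have e3 : ∫ x, ∫ t, h (rt z t x) ∂ν ∂μ = ∫ x, (2 * Real.pi * h z) ∂μ := by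
    refine setIntegral_congr_fun measurableSet_ball fun x hx => ?_
    have := rt_avg z r h hd x hx
    rw [intervalIntegral.integral_of_le hpi] at this
    exact this
  rw [e3, e1, integral_const] at e2
  have hv : μ.real Set.univ = (Real.pi * r ^ 2) ^ m := by
    rw [← vol_ball z r hr, hμ]
    simp
  rw [hv] at e2
  have hp : (Real.pi : ℂ) ≠ 0 := by exact_mod_cast Real.pi_ne_zero
  rw [Complex.real_smul, Complex.real_smul] at e2
  have h2p : ((2 * Real.pi : ℝ) : ℂ) ≠ 0 := by
    push_cast
    exact mul_ne_zero two_ne_zero hp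
  apply mul_left_cancel₀ h2p
  rw [e2]
  push_cast
  ring

theorem hSUP : Pool.Agent.Helper52.KP.StSUP := by
  intro m z r hr h hd hi
  have hms : AEStronglyMeasurable h (volume.restrict (Metric.ball z r)) :=
    hd.continuousOn.aestronglyMeasurable measurableSet_ball
  have hfin : IsFiniteMeasure ((volume : Measure (Fin m → ℂ)).restrict (Metric.ball z r)) :=
    ⟨by simpa using Metric.isBounded_ball.measure_lt_top⟩
  have hL2 : MemLp h 2 (volume.restrict (Metric.ball z r)) := by
    rw [memLp_two_iff_integrable_sq_norm hms]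
    exact hi
  have hL1 : IntegrableOn h (Metric.ball z r) := hL2.integrable one_le_two
  have hsq : IntegrableOn (fun x => h x ^ 2) (Metric.ball z r) := by
    refine Integrable.mono' hi ?_ ?_
    · exact hms.pow 2
    · filter_upwards with x
      rw [norm_pow]
  refine ⟨mean z r hr h hd hL1, ?_⟩
  have h1 := mean z r hr (fun x => h x ^ 2) (hd.pow 2) hsq
  have h2 : ‖(((Real.pi * r ^ 2) ^ m : ℝ) : ℂ) * h z ^ 2‖ ≤
      ∫ x in Metric.ball z r, ‖h x ^ 2‖ := by
    rw [h1]
    exact norm_integral_le_integral_norm _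
  rw [norm_mul, Complex.norm_real, norm_pow, Real.norm_of_nonneg (by positivity)] at h2
  simpa only [norm_pow] using h2

end Pool.Agent.Helper95.KP
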